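import Mathlib.CategoryTheory.Category.Init
import Mathlib.Tactic.Monotonicity.Lemmas
import Mathlib.Algebra.Order.Ring.Star
import Mathlib.MeasureTheory.Function.SimpleFuncDense
import Mathlib.Topology.ContinuousMap.Compact
import Mathlib.Algebra.Order.Star.Real
import Mathlib.Analysis.CStarAlgebra.Classes
import Mathlib.Analysis.SpecialFunctions.Complex.Circle
import Mathlib.Topology.Metrizable.Urysohn
import Mathlib.Topology.Compactness.Paracompact
import Mathlib.Topology.TietzeExtension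
import Mathlib.Order.CompletePartialOrder
import Mathlib.Tactic.Algebra.Basic
import Mathlib.Topology.ContinuousMap.SecondCountableSpace
import Mathlib.Topology.UniformSpace.Uniformizable

-- ======== part 0: formerly Pool.Agent.MP_321614_gt.Lift
section MrgPart0

/-!
# A spiral model and a lifting lemma for continua

`E = [0,1] × S¹`.  The spiral `Y ⊆ E` consists of the points `(s, exp (π / s))`, `0 < s ≤ 1`,
together with the limit circle `{0} × S¹`.  `Rel t p` says that `p ∈ Y` lies over the real number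
`t` for the folding map `p ↦ Re p.2`, the left end `(1, -1)` being used over `t < -1` and the point
`(0, 1)` of the limit circle over `t > 1`.
-/

set_option autoImplicit false

open Set Real Topology Filter

namespace Pool.Agent.MP_321614_gt

/-- The coordinate space. -/
abbrev E : Type := unitInterval × Circle

/-- The spiral relation. -/
def Rel (t : ℝ) (p : E) : Prop :=
  (0 < (p.1 : ℝ) → p.2 = Circle.exp (π / p.1)) ∧ (p.2 : ℂ).re = max (-1) (min t 1) ∧
    (t < -1 → (p.1 : ℝ) = 1) ∧ (1 < t → (p.1 : ℝ) = 0)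

lemma isClosed_rel : IsClosed {q : ℝ × E | Rel q.1 q.2} := by
  have h1 : IsClosed {q : ℝ × E | 0 < (q.2.1 : ℝ) → q.2.2 = Circle.exp (π / q.2.1)} := by
    rw [← isOpen_compl_iff, isOpen_iff_mem_nhds]
    intro q hq
    simp only [mem_compl_iff, mem_ofPred_eq, Classical.not_imp] at hq
    obtain ⟨hq1, hq2⟩ := hq
    have c1 : ContinuousAt (fun q : ℝ × E => (q.2.1 : ℝ)) q := by fun_prop
    have c2 : ContinuousAt (fun q : ℝ × E => Circle.exp (π / (q.2.1 : ℝ))) q :=
      Circle.exp.continuous.continuousAt.comp (continuousAt_const.div c1 hq1.ne')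
    have c3 : ContinuousAt (fun q : ℝ × E => q.2.2) q := by fun_prop
    have e1 : ∀ᶠ r : ℝ × E in 𝓝 q, 0 < (r.2.1 : ℝ) := c1.eventually (lt_mem_nhds hq1)
    have e2 : ∀ᶠ r : ℝ × E in 𝓝 q, r.2.2 ≠ Circle.exp (π / (r.2.1 : ℝ)) :=
      (c3.prodMk c2).eventually (isClosed_diagonal.isOpen_compl.mem_nhds hq2)
    filter_upwards [e1, e2] with r hr1 hr2
    simp only [mem_compl_iff, mem_ofPred_eq, Classical.not_imp]
    exact ⟨hr1, hr2⟩
  have h2 : IsClosed {q : ℝ × E | (q.2.2 : ℂ).re = max (-1) (min q.1 1)} :=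
    isClosed_eq (by fun_prop) (by fun_prop)
  have h3 : IsClosed {q : ℝ × E | q.1 < -1 → (q.2.1 : ℝ) = 1} :=
    isClosed_imp (isOpen_lt (by fun_prop) (by fun_prop)) (isClosed_eq (by fun_prop) (by fun_prop))
  have h4 : IsClosed {q : ℝ × E | 1 < q.1 → (q.2.1 : ℝ) = 0} :=
    isClosed_imp (isOpen_lt (by fun_prop) (by fun_prop)) (isClosed_eq (by fun_prop) (by fun_prop))
  exact h1.inter (h2.inter (h3.inter h4))

/-- The point of the spiral with angle `φ ≥ π`. -/
noncomputable def pt (φ : ℝ) : E :=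
  (⟨π / max φ π, div_nonneg pi_pos.le (pi_pos.le.trans (le_max_right _ _)),
    (div_le_one (pi_pos.trans_le (le_max_right _ _))).2 (le_max_right _ _)⟩, Circle.exp φ)

lemma continuous_pt : Continuous pt := by
  refine Continuous.prodMk (Continuous.subtype_mk ?_ _) Circle.exp.continuous
  exact continuous_const.div (by fun_prop) fun φ => (pi_pos.trans_le (le_max_right _ _)).ne'

/-- The point of the limit circle with angle `φ`. -/
noncomputable def lim (φ : ℝ) : E := (0, Circle.exp φ)

lemma continuous_lim : Continuous lim := continuous_const.prodMk Circle.exp.continuous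

lemma cos_arccos_clamp (t : ℝ) : cos (arccos t) = max (-1) (min t 1) := by
  rcases le_total t (-1) with h | h
  · rw [arccos_of_le_neg_one h, cos_pi, min_eq_left (by linarith), max_eq_left h]
  rcases le_total t 1 with h' | h'
  · rw [cos_arccos h h', min_eq_left h', max_eq_right h]
  · rw [arccos_of_one_le h', cos_zero, min_eq_right h', max_eq_right (by norm_num)]

lemma re_exp (φ : ℝ) : (Circle.exp φ : ℂ).re = cos φ := by
  rw [Circle.coe_exp, Complex.exp_ofReal_mul_I_re]

lemma rel_pt {t φ : ℝ} (hφ : π ≤ φ) (hc : cos φ = max (-1) (min t 1)) (h1 : t < -1 → φ = π)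
    (h2 : t ≤ 1) : Rel t (pt φ) := by
  have hφ0 : 0 < φ := pi_pos.trans_le hφ
  refine ⟨fun _ => ?_, ?_, fun ht => ?_, fun ht => absurd ht (not_lt.2 h2)⟩
  · simp only [pt, max_eq_left hφ]
    congr 1
    field_simp
  · simp only [pt, re_exp, hc]
  · simp only [pt, h1 ht, max_self]
    exact div_self pi_pos.ne'

lemma rel_lim {t : ℝ} (h : -1 ≤ t) : Rel t (lim (-arccos t)) := by
  refine ⟨fun h0 => ?_, ?_, fun ht => absurd ht (not_lt.2 h), fun _ => rfl⟩
  · simp [lim] at h0
  · simp only [lim, re_exp, cos_neg, cos_arccos_clamp]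

/-- Angle of the `2j`-th sheet. -/
noncomputable def dn (j : ℕ) (t : ℝ) : ℝ := (j + 1) * (2 * π) - arccos t

/-- Angle of the `(2j+1)`-th sheet. -/
noncomputable def up (j : ℕ) (t : ℝ) : ℝ := (j + 1) * (2 * π) + arccos t

lemma rel_dn (j : ℕ) {t : ℝ} (h1 : t < -1 → j = 0) (h2 : t ≤ 1) : Rel t (pt (dn j t)) := by
  refine rel_pt ?_ ?_ (fun ht => ?_) h2
  · have := arccos_le_pi t
    have hj : (0 : ℝ) ≤ j := Nat.cast_nonneg j
    unfold dn
    nlinarith [pi_pos]
  · have : dn j t = ((j + 1 : ℕ) : ℝ) * (2 * π) - arccos t := by simp [dn]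
    rw [this, cos_nat_mul_two_pi_sub, cos_arccos_clamp]
  · rw [h1 ht, dn, arccos_of_le_neg_one ht.le]
    simp
    ring

lemma rel_up (j : ℕ) {t : ℝ} (h1 : -1 ≤ t) (h2 : t ≤ 1) : Rel t (pt (up j t)) := by
  refine rel_pt ?_ ?_ (fun ht => absurd ht (not_lt.2 h1)) h2
  · have := arccos_nonneg t
    have hj : (0 : ℝ) ≤ j := Nat.cast_nonneg j
    unfold up
    nlinarith [pi_pos]
  · have : up j t = arccos t + ((j + 1 : ℕ) : ℝ) * (2 * π) := by simp [up]; ring
    rw [this, cos_add_nat_mul_two_pi, cos_arccos_clamp]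

lemma tendsto_pt_odd :
    Tendsto (fun J : ℕ => pt ((J : ℝ) * (2 * π) + π)) atTop (𝓝 (lim (-π))) := by
  have h2 : ∀ J : ℕ, Circle.exp ((J : ℝ) * (2 * π) + π) = Circle.exp (-π) := fun J =>
    Circle.exp_eq_exp.2 ⟨(J : ℤ) + 1, by push_cast; ring⟩
  unfold pt lim
  refine Tendsto.prodMk_nhds ?_ ?_
  · rw [tendsto_subtype_rng]
    simp only [Icc.coe_zero]
    refine Tendsto.div_atTop tendsto_const_nhds ?_
    refine tendsto_atTop_mono (fun J => le_max_left _ _) ?_
    refine tendsto_atTop_add_const_right _ _ ?_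
    exact Tendsto.atTop_mul_const (by positivity) tendsto_natCast_atTop_atTop
  · simp only [h2]
    exact tendsto_const_nhds

/-- The lifting lemma: the fibre product of a continuum `X` with the spiral over `ℝ` contains a
continuum that projects onto `X`. -/
theorem exists_lift {X : Type*} [TopologicalSpace X] [CompactSpace X] [T2Space X]
    [ConnectedSpace X] (u : X → ℝ) (hu : Continuous u) :
    ∃ D : Set (X × E), IsCompact D ∧ IsConnected D ∧ (∀ q ∈ D, Rel (u q.1) q.2) ∧
      ∀ x, ∃ y, (x, y) ∈ D := by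
  have cdn : ∀ j, Continuous fun x => pt (dn j (u x)) := fun j =>
    continuous_pt.comp (by unfold dn; fun_prop)
  have cup : ∀ j, Continuous fun x => pt (up j (u x)) := fun j =>
    continuous_pt.comp (by unfold up; fun_prop)
  have clim : Continuous fun x => lim (-arccos (u x)) := continuous_lim.comp (by fun_prop)
  by_cases hx0 : ∀ x, u x ≤ 1
  · have c : Continuous fun x : X => (x, pt (dn 0 (u x))) := continuous_id.prodMk (cdn 0)
    refine ⟨range fun x : X => (x, pt (dn 0 (u x))), isCompact_range c, isConnected_range c, ?_,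
      fun x => ⟨_, x, rfl⟩⟩
    rintro _ ⟨x, rfl⟩
    exact rel_dn 0 (fun _ => rfl) (hx0 x)
  push Not at hx0
  obtain ⟨x0, hx0⟩ := hx0
  set Z : Set (X × E) := {q | Rel (u q.1) q.2} with hZ
  have hZc : IsClosed Z :=
    isClosed_rel.preimage (f := fun q : X × E => (u q.1, q.2)) (by fun_prop)
  have : CompactSpace Z := isCompact_iff_compactSpace.1 hZc.isCompact
  let b : Z := ⟨(x0, lim (-arccos (u x0))), rel_lim (by linarith)⟩
  refine ⟨Subtype.val '' connectedComponent b,
    isClosed_connectedComponent.isCompact.image continuous_subtype_val,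
    isConnected_connectedComponent.image _ continuous_subtype_val.continuousOn, ?_, ?_⟩
  · rintro _ ⟨z, -, rfl⟩
    exact z.2
  intro x1
  by_contra hcon
  push Not at hcon
  -- a clopen set containing the base point and missing the fibre over `x1`
  obtain ⟨W, hW, hbW, hWx⟩ : ∃ W : Set Z, IsClopen W ∧ b ∈ W ∧ ∀ z ∈ W, (z : X × E).1 ≠ x1 := by
    have hF : IsCompact {z : Z | (z : X × E).1 = x1} :=
      (isClosed_eq (by fun_prop) continuous_const).isCompact
    have hdis : {z : Z | (z : X × E).1 = x1} ∩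
        ⋂ s : { s : Set Z // IsClopen s ∧ b ∈ s }, (s : Set Z) = ∅ := by
      rw [← connectedComponent_eq_iInter_isClopen, eq_empty_iff_forall_notMem]
      rintro z ⟨hz1, hz2⟩
      refine hcon (z : X × E).2 ⟨z, hz2, ?_⟩
      exact Prod.ext hz1 rfl
    obtain ⟨t, ht⟩ := hF.elim_finite_subfamily_closed _
      (fun s : { s : Set Z // IsClopen s ∧ b ∈ s } => s.2.1.1) hdis
    refine ⟨⋂ i ∈ t, (i : Set Z), isClopen_biInter_finset fun i _ => i.2.1,
      mem_iInter₂.2 fun i _ => i.2.2, fun z hz hz1 => ?_⟩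
    have : z ∈ ({z : Z | (z : X × E).1 = x1} ∩ ⋂ i ∈ t, (i : Set Z)) := ⟨hz1, hz⟩
    rw [ht] at this
    exact this
  obtain ⟨χ, hχ0, hχ1, -⟩ := exists_continuous_zero_one_of_isClosed
    (X := X × E) (s := Subtype.val '' Wᶜ) (t := Subtype.val '' W)
    (hW.compl.isClosed.isCompact.image continuous_subtype_val).isClosed
    (hW.isClosed.isCompact.image continuous_subtype_val).isClosed
    ((disjoint_image_iff Subtype.val_injective).2 disjoint_compl_left)
  have hχ : ∀ x y, Rel (u x) y → χ (x, y) = 0 ∨ χ (x, y) = 1 := fun x y h => by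
    by_cases hw : (⟨(x, y), h⟩ : Z) ∈ W
    · exact Or.inr (hχ1 ⟨_, hw, rfl⟩)
    · exact Or.inl (hχ0 ⟨_, hw, rfl⟩)
  have hχx : ∀ y, Rel (u x1) y → χ (x1, y) = 0 := fun y h =>
    hχ0 ⟨⟨(x1, y), h⟩, fun hw => hWx _ hw rfl, rfl⟩
  -- choose the number of windings
  obtain ⟨J, hJ⟩ : ∃ J : ℕ, ∀ x, |χ (x, lim (-π)) - χ (x, pt ((J : ℝ) * (2 * π) + π))| < 1 / 4 := by
    have h := (isCompact_univ (X := X)).eventually_forall_of_forall_eventually
      (x₀ := lim (-π)) (P := fun p x => |χ (x, lim (-π)) - χ (x, p)| < 1 / 4) (fun x _ => by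
        have c : Continuous fun z : E × X => |χ (z.2, lim (-π)) - χ (z.2, z.1)| := by fun_prop
        refine c.continuousAt.eventually (gt_mem_nhds ?_)
        simp)
    obtain ⟨J, hJ⟩ := (tendsto_pt_odd.eventually h).exists
    exact ⟨J, fun x => hJ x (mem_univ _)⟩
  let Φ : X → ℝ := fun x =>
    ∑ j ∈ Finset.range J, (χ (x, pt (dn j (u x))) - χ (x, pt (up j (u x)))) +
      χ (x, lim (-arccos (u x)))
  have cΦ : Continuous Φ := by
    refine Continuous.add (continuous_finsetSum _ fun j _ => ?_) ?_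
    · exact (χ.continuous.comp (continuous_id.prodMk (cdn j))).sub
        (χ.continuous.comp (continuous_id.prodMk (cup j)))
    · exact χ.continuous.comp (continuous_id.prodMk clim)
  have hR : ∀ x, 1 ≤ u x → Φ x = χ (x, lim (-arccos (u x))) := fun x hx => by
    simp [Φ, dn, up, arccos_of_one_le hx]
  have hL : ∀ x, u x ≤ -1 → |Φ x - χ (x, pt (dn 0 (u x)))| < 1 / 4 := fun x hx => by
    have e1 : ∀ j : ℕ, dn j (u x) = (j : ℝ) * (2 * π) + π := fun j => by
      rw [dn, arccos_of_le_neg_one hx]; ring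
    have e2 : ∀ j : ℕ, up j (u x) = ((j + 1 : ℕ) : ℝ) * (2 * π) + π := fun j => by
      rw [up, arccos_of_le_neg_one hx]; push_cast; ring
    have e3 := Finset.sum_range_sub' (fun j : ℕ => χ (x, pt ((j : ℝ) * (2 * π) + π))) J
    have e4 : Φ x = χ (x, pt (((0 : ℕ) : ℝ) * (2 * π) + π)) - χ (x, pt ((J : ℝ) * (2 * π) + π)) +
        χ (x, lim (-π)) := by
      simp only [Φ, e1, e2, arccos_of_le_neg_one hx]
      rw [e3]
    rw [e4, e1]
    convert hJ x using 2
    ring
  -- `Φ` never equals `1 / 2`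
  have hhalf : ∀ x, Φ x ≠ 1 / 2 := fun x hx => by
    rcases le_total (u x) (-1) with h | h
    · have h1 := hL x h
      rw [hx] at h1
      rcases hχ x _ (rel_dn 0 (fun _ => rfl) (by linarith)) with h2 | h2 <;> rw [h2] at h1 <;>
        norm_num [abs_lt] at h1
    rcases le_total (u x) 1 with h' | h'
    · have hint : ∀ y, Rel (u x) y → ∃ m : ℤ, χ (x, y) = m := fun y hy => by
        rcases hχ x y hy with h2 | h2
        · exact ⟨0, by simp [h2]⟩
        · exact ⟨1, by simp [h2]⟩
      choose! m hm using hint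
      have : Φ x = ((∑ j ∈ Finset.range J, (m (pt (dn j (u x))) - m (pt (up j (u x)))) +
          m (lim (-arccos (u x))) : ℤ) : ℝ) := by
        push_cast
        simp only [Φ]
        rw [hm _ (rel_lim h)]
        congr 1
        refine Finset.sum_congr rfl fun j _ => ?_
        rw [hm _ (rel_dn j (fun h0 => absurd h0 (not_lt.2 h)) h'), hm _ (rel_up j h h')]
      rw [hx] at this
      generalize (∑ j ∈ Finset.range J, (m (pt (dn j (u x))) - m (pt (up j (u x)))) +
          m (lim (-arccos (u x))) : ℤ) = k at this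
      have h3 : ((2 * k : ℤ) : ℝ) = ((1 : ℤ) : ℝ) := by push_cast; linarith
      have h4 : 2 * k = 1 := Int.cast_injective h3
      omega
    · rw [hR x h'] at hx
      rcases hχ x _ (rel_lim h) with h2 | h2 <;> rw [h2] at hx <;> norm_num at hx
  have hb1 : Φ x0 = 1 := by
    rw [hR x0 hx0.le]
    exact hχ1 ⟨b, hbW, rfl⟩
  have hx1 : Φ x1 ≤ 1 / 2 := by
    rcases le_total (u x1) (-1) with h | h
    · have h1 := hL x1 h
      rw [hχx _ (rel_dn 0 (fun _ => rfl) (by linarith))] at h1
      linarith [(abs_lt.1 h1).2]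
    rcases le_total (u x1) 1 with h' | h'
    · have : Φ x1 = 0 := by
        simp only [Φ]
        rw [hχx _ (rel_lim h), add_zero]
        refine Finset.sum_eq_zero fun j _ => ?_
        rw [hχx _ (rel_dn j (fun h0 => absurd h0 (not_lt.2 h)) h'), hχx _ (rel_up j h h'), sub_zero]
      linarith
    · rw [hR x1 h', hχx _ (rel_lim h)]
      norm_num
  obtain ⟨x, hx⟩ := intermediate_value_univ x1 x0 cΦ ⟨hx1, by rw [hb1]; norm_num⟩
  exact hhalf x hx

end Pool.Agent.MP_321614_gt

end MrgPart0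

-- ======== part 1: formerly Pool.Agent.MP_321614_gt.Essential
section MrgPart1

/-!
# A continuum crossing the spiral has no chain cover with small links
-/

set_option autoImplicit false

open Set Real Topology Filter

namespace Pool.Agent.MP_321614_gt

/-- A connected space mapped into the spiral, meeting both the ray and the limit circle, has an
essential angle function. -/
lemma no_lift {H : Type*} [TopologicalSpace H] [PreconnectedSpace H] (p : H → E)
    (hp : Continuous p) (hY : ∀ x, 0 < ((p x).1 : ℝ) → (p x).2 = Circle.exp (π / (p x).1))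
    (a b : H) (ha : 0 < ((p a).1 : ℝ)) (hb : ((p b).1 : ℝ) = 0) (θ : H → ℝ) (hθ : Continuous θ)
    (hθz : ∀ x, Circle.exp (θ x) = (p x).2) : False := by
  obtain ⟨k, hk⟩ := Circle.exp_eq_exp.1 ((hθz a).trans (hY a ha))
  have cs : Continuous fun x => ((p x).1 : ℝ) := by fun_prop
  set W : Set H := {x | ((p x).1 : ℝ) * (θ x - k * (2 * π)) = π} with hW
  have hcl : IsClosed W := isClosed_eq (by fun_prop) continuous_const
  have hop : IsOpen W := by
    rw [isOpen_iff_mem_nhds]
    intro x hx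
    have hx' : ((p x).1 : ℝ) * (θ x - k * (2 * π)) = π := hx
    have hs : 0 < ((p x).1 : ℝ) := by
      refine lt_of_le_of_ne (p x).1.2.1 fun h => ?_
      rw [← h, zero_mul] at hx'
      exact pi_pos.ne hx'
    have c : ContinuousAt (fun y => |θ y - k * (2 * π) - π / ((p y).1 : ℝ)|) x :=
      ((hθ.continuousAt.sub continuousAt_const).sub
        (continuousAt_const.div cs.continuousAt hs.ne')).abs
    have h0 : |θ x - k * (2 * π) - π / ((p x).1 : ℝ)| < 2 * π := by
      have : θ x - k * (2 * π) - π / ((p x).1 : ℝ) = 0 := by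
        rw [sub_eq_zero, eq_div_iff hs.ne', mul_comm]
        exact hx'
      rw [this, abs_zero]
      positivity
    filter_upwards [c.eventually (gt_mem_nhds h0), cs.continuousAt.eventually (lt_mem_nhds hs)]
      with y hy1 hy2
    obtain ⟨m, hm⟩ := Circle.exp_eq_exp.1 ((hθz y).trans (hY y hy2))
    have e : θ y - k * (2 * π) - π / ((p y).1 : ℝ) = ((m - k : ℤ) : ℝ) * (2 * π) := by
      rw [hm]; push_cast; ring
    rw [e, abs_mul, abs_of_pos two_pi_pos] at hy1
    have h1 : |((m - k : ℤ) : ℝ)| < 1 := by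
      by_contra hcon
      push Not at hcon
      nlinarith [two_pi_pos]
    have h2 : m - k = 0 := by
      rw [← Int.cast_abs] at h1
      exact Int.abs_lt_one_iff.1 (by exact_mod_cast h1)
    have h3 : m = k := by omega
    change ((p y).1 : ℝ) * (θ y - k * (2 * π)) = π
    rw [hm, h3, add_sub_cancel_right]
    field_simp
  have haW : a ∈ W := by
    change ((p a).1 : ℝ) * (θ a - k * (2 * π)) = π
    rw [hk, add_sub_cancel_right]
    field_simp
  have hbW : b ∈ W := by
    rw [IsClopen.eq_univ ⟨hcl, hop⟩ ⟨a, haW⟩]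
    exact mem_univ _
  have hb' : ((p b).1 : ℝ) * (θ b - k * (2 * π)) = π := hbW
  rw [hb, zero_mul] at hb'
  exact pi_pos.ne hb'

lemma re_div_pos {z w : Circle} (h : dist z w < 1) : 0 < ((z / w : Circle) : ℂ).re := by
  have h1 : ‖((z / w : Circle) : ℂ) - 1‖ < 1 := by
    have e : ((z / w : Circle) : ℂ) - 1 = ((z : ℂ) - w) / w := by
      rw [Circle.coe_div]
      field_simp
    rw [e, norm_div, Circle.norm_coe, div_one, ← dist_eq_norm]
    exact h
  have h2 := (Complex.abs_re_le_norm _).trans_lt h1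
  rw [Complex.sub_re, Complex.one_re] at h2
  linarith [(abs_lt.1 h2).1]

lemma abs_arg_div_lt {z w : Circle} (h : dist z w < 1) :
    |Complex.arg ((z / w : Circle) : ℂ)| < π / 2 :=
  Complex.abs_arg_lt_pi_div_two_iff.2 (Or.inl (re_div_pos h))

/-- A circle-valued map that is small on the links of a chain cover lifts to `ℝ`. -/
lemma chain_lift {H : Type*} [TopologicalSpace H] (z : H → Circle) (hz : Continuous z) (n : ℕ)
    (V : Fin n → Set H) (hopen : ∀ i, IsOpen (V i)) (hcover : ∀ x, ∃ i, x ∈ V i)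
    (hchain : ∀ i j, (V i ∩ V j).Nonempty ↔ (i.val ≤ j.val + 1 ∧ j.val ≤ i.val + 1))
    (hsmall : ∀ i, ∀ x ∈ V i, ∀ y ∈ V i, dist (z x) (z y) < 1 / 2) :
    ∃ θ : H → ℝ, Continuous θ ∧ ∀ x, Circle.exp (θ x) = z x := by
  have hne : ∀ i, ∃ x, x ∈ V i := fun i => by
    obtain ⟨x, hx, -⟩ := (hchain i i).2 ⟨by omega, by omega⟩
    exact ⟨x, hx⟩
  choose q hq using hne
  let w : ℕ → Circle := fun i => if h : i < n then z (q ⟨i, h⟩) else 1
  have hw : ∀ i : Fin n, w i = z (q i) := fun i => by simp [w]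
  let a : ℕ → ℝ := fun i => Nat.rec (Complex.arg (w 0))
    (fun i r => r + Complex.arg ((w (i + 1) / w i : Circle) : ℂ)) i
  have ha : ∀ i, Circle.exp (a i) = w i := fun i => by
    induction i with
    | zero => exact Circle.exp_arg _
    | succ i ih =>
      change Circle.exp (a i + Complex.arg ((w (i + 1) / w i : Circle) : ℂ)) = _
      rw [Circle.exp_add, ih, Circle.exp_arg, mul_div_cancel]
  let θ' : ℕ → H → ℝ := fun i x => a i + Complex.arg ((z x / w i : Circle) : ℂ)
  have hθ' : ∀ i x, Circle.exp (θ' i x) = z x := fun i x => by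
    simp only [θ']
    rw [Circle.exp_add, ha, Circle.exp_arg, mul_div_cancel]
  have hadj : ∀ (i j : Fin n) x, x ∈ V i → x ∈ V j → j.val = i.val + 1 → θ' i x = θ' j x := by
    intro i j x hi hj hij
    obtain ⟨m, hm⟩ := Circle.exp_eq_exp.1 ((hθ' i x).trans (hθ' j x).symm)
    have d1 : dist (z x) (w i) < 1 / 2 := by rw [hw]; exact hsmall i _ hi _ (hq i)
    have d2 : dist (z x) (w j) < 1 / 2 := by rw [hw]; exact hsmall j _ hj _ (hq j)
    have d3 : dist (w j) (w i) < 1 := by
      have := dist_triangle_left (w j) (w i) (z x)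
      linarith
    have b1 := abs_arg_div_lt (d1.trans (by norm_num))
    have b2 := abs_arg_div_lt (d2.trans (by norm_num))
    have b3 := abs_arg_div_lt d3
    have e : a j = a i + Complex.arg ((w j / w i : Circle) : ℂ) := by rw [hij]
    simp only [θ'] at hm ⊢
    rw [e] at hm ⊢
    have h1 : |(m : ℝ)| < 1 := by
      rw [abs_lt] at b1 b2 b3 ⊢
      constructor <;> nlinarith [pi_pos]
    have h2 : m = 0 := by
      rw [← Int.cast_abs] at h1
      exact Int.abs_lt_one_iff.1 (by exact_mod_cast h1)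
    rw [hm, h2]
    simp
  have hall : ∀ (i j : Fin n) x, x ∈ V i → x ∈ V j → θ' i x = θ' j x := by
    intro i j x hi hj
    obtain ⟨h1, h2⟩ := (hchain i j).1 ⟨x, hi, hj⟩
    rcases lt_trichotomy i.val j.val with h | h | h
    · exact hadj i j x hi hj (by omega)
    · rw [h]
    · exact (hadj j i x hj hi (by omega)).symm
  choose idx hidx using hcover
  refine ⟨fun x => θ' (idx x) x, continuous_iff_continuousAt.2 fun x => ?_, fun x => hθ' _ _⟩
  have c : ContinuousAt (θ' (idx x)) x := by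
    refine continuousAt_const.add ?_
    have d1 : dist (z x) (w (idx x)) < 1 := by
      rw [hw]; exact (hsmall _ _ (hidx x) _ (hq _)).trans (by norm_num)
    have c1 : ContinuousAt (fun y => ((z y / w (idx x) : Circle) : ℂ)) x := by fun_prop
    exact ContinuousAt.comp (f := fun y => ((z y / w (idx x) : Circle) : ℂ))
      (Complex.continuousAt_arg (Or.inl (re_div_pos d1))) c1
  refine c.congr ?_
  filter_upwards [(hopen _).mem_nhds (hidx x)] with y hy
  exact hall _ _ y hy (hidx y)

lemma sq_re_add_sq_im (z : Circle) : (z : ℂ).re ^ 2 + (z : ℂ).im ^ 2 = 1 := by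
  have := Circle.normSq_coe z
  rw [Complex.normSq_apply] at this
  nlinarith

lemma abs_re_le (z : Circle) : |(z : ℂ).re| ≤ 1 :=
  (Complex.abs_re_le_norm _).trans (Circle.norm_coe z).le

lemma im_sq_sub_le {z w : Circle} (h : |(z : ℂ).re - (w : ℂ).re| ≤ 1 / 500) :
    |(z : ℂ).im ^ 2 - (w : ℂ).im ^ 2| ≤ 1 / 250 := by
  have e : (z : ℂ).im ^ 2 - (w : ℂ).im ^ 2 =
      -(((z : ℂ).re - (w : ℂ).re) * ((z : ℂ).re + (w : ℂ).re)) := by
    nlinarith [sq_re_add_sq_im z, sq_re_add_sq_im w]
  rw [e, abs_neg, abs_mul]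
  have h2 : |(z : ℂ).re + (w : ℂ).re| ≤ 2 :=
    (abs_add_le _ _).trans (by linarith [abs_re_le z, abs_re_le w])
  calc _ ≤ 1 / 500 * 2 := mul_le_mul h h2 (abs_nonneg _) (by norm_num)
    _ = _ := by norm_num

/-- On a connected set on which `Re z` is nearly constant, `z` is nearly constant. -/
lemma small_of_preconnected {H : Type*} [TopologicalSpace H] (z : H → Circle) (hz : Continuous z)
    {F : Set H} (hF : IsPreconnected F)
    (h : ∀ x ∈ F, ∀ y ∈ F, |(z x : ℂ).re - (z y : ℂ).re| ≤ 1 / 500) :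
    ∀ x ∈ F, ∀ y ∈ F, dist (z x) (z y) < 1 / 4 := by
  have key : ∀ x ∈ F, ∀ y ∈ F, (z x : ℂ).im ≤ (z y : ℂ).im →
      (z y : ℂ).im - (z x : ℂ).im ≤ 1 / 7 := by
    intro x hx y hy hle
    have h1 := abs_le.1 (im_sq_sub_le (h x hx y hy))
    rcases le_total 0 (z x : ℂ).im with h0 | h0
    · nlinarith
    rcases le_total (z y : ℂ).im 0 with h0' | h0'
    · nlinarith
    have c : ContinuousOn (fun x => (z x : ℂ).im) F := by fun_prop
    obtain ⟨v, hv, hv0⟩ := hF.intermediate_value hx hy c ⟨h0, h0'⟩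
    have h2 := abs_le.1 (im_sq_sub_le (h x hx v hv))
    have h3 := abs_le.1 (im_sq_sub_le (h y hy v hv))
    simp only at hv0
    rw [hv0] at h2 h3
    have h4 : -(z x : ℂ).im ≤ 1 / 14 := by nlinarith
    have h5 : (z y : ℂ).im ≤ 1 / 14 := by nlinarith
    linarith
  intro x hx y hy
  have him : |(z x : ℂ).im - (z y : ℂ).im| ≤ 1 / 7 := by
    rcases le_total (z x : ℂ).im (z y : ℂ).im with h0 | h0
    · rw [abs_sub_comm, abs_of_nonneg (sub_nonneg.2 h0)]
      exact key x hx y hy h0
    · rw [abs_of_nonneg (sub_nonneg.2 h0)]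
      exact key y hy x hx h0
  have e : dist (z x) (z y) = ‖(z x : ℂ) - z y‖ := by rw [← dist_eq_norm]; rfl
  rw [e]
  have := Complex.norm_le_abs_re_add_abs_im ((z x : ℂ) - z y)
  rw [Complex.sub_re, Complex.sub_im] at this
  linarith [h x hx y hy]

lemma abs_clamp_sub (s t : ℝ) : |max (-1) (min s 1) - max (-1) (min t 1)| ≤ |s - t| := by
  refine (abs_max_sub_max_le_max _ _ _ _).trans ?_
  rw [sub_self, abs_zero]
  refine max_le (abs_nonneg _) ((abs_min_sub_min_le_max _ _ _ _).trans ?_)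
  rw [sub_self, abs_zero]
  exact max_le le_rfl (abs_nonneg _)

/-- A continuum all of whose real-valued maps nearly lift to the spiral has no monotone image
containing a nondegenerate chainable continuum. -/
theorem no_chainable {M : Type} [MetricSpace M] [CompactSpace M]
    (hM : ∀ u : M → ℝ, Continuous u → ∃ (p : M → E) (u' : M → ℝ), Continuous p ∧
      (∀ x, |u' x - u x| ≤ 1 / 1000) ∧ ∀ x, Rel (u' x) (p x))
    (Y : Type) [MetricSpace Y] (f : M → Y) (hf : Continuous f) (hfs : Function.Surjective f)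
    (hfib : ∀ y : Y, IsConnected (f ⁻¹' {y})) :
    ¬ ∃ K : Set Y, IsCompact K ∧ IsConnected K ∧ K.Nontrivial ∧
      ∀ ε : ℝ, 0 < ε → ∃ (n : ℕ) (U : Fin n → Set Y),
        (∀ i, IsOpen (U i)) ∧
        (∀ i, Metric.diam (U i ∩ K) < ε) ∧
        K ⊆ ⋃ i, U i ∧
        (∀ i j, (U i ∩ U j ∩ K).Nonempty ↔ (i.val ≤ j.val + 1 ∧ j.val ≤ i.val + 1)) := by
  rintro ⟨K, hKc, hKconn, ⟨k0, hk0, k1, hk1, hne⟩, hch⟩
  have hd : 0 < dist k0 k1 := dist_pos.2 hne
  obtain ⟨p, u', hp, hu', hrel⟩ := hM (fun x => 4 * dist k0 (f x) / dist k0 k1 - 2) (by fun_prop)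
  have hz : Continuous fun x => (p x).2 := by fun_prop
  -- fibres have small image in the circle
  have hfibre : ∀ x y, f x = f y → dist (p x).2 (p y).2 < 1 / 4 := by
    intro x y hxy
    refine small_of_preconnected _ hz (hfib (f y)).isPreconnected ?_ x hxy y rfl
    intro a ha b hb
    rw [(hrel a).2.1, (hrel b).2.1]
    refine (abs_clamp_sub _ _).trans ?_
    have h1 := abs_le.1 (hu' a)
    have h2 := abs_le.1 (hu' b)
    have ha' : f a = f y := ha
    have hb' : f b = f y := hb
    rw [ha'] at h1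
    rw [hb'] at h2
    rw [abs_le]
    constructor <;> linarith [h1.1, h1.2, h2.1, h2.2]
  obtain ⟨δ, hδ, hδs⟩ : ∃ δ : ℝ, 0 < δ ∧
      ∀ x y, dist (f x) (f y) < δ → dist (p x).2 (p y).2 < 1 / 2 := by
    have hc : IsCompact {q : M × M | 1 / 2 ≤ dist (p q.1).2 (p q.2).2} :=
      (isClosed_le continuous_const (by fun_prop)).isCompact
    obtain ⟨δ, hδ, hδ'⟩ := hc.exists_forall_le' (f := fun q : M × M => dist (f q.1) (f q.2))
      (by fun_prop) (a := 0) (fun q hq => dist_pos.2 fun h => by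
        have h1 := hfibre _ _ h
        have h2 : 1 / 2 ≤ dist (p q.1).2 (p q.2).2 := hq
        linarith)
    refine ⟨δ, hδ, fun x y hxy => ?_⟩
    by_contra hcon
    exact absurd (hδ' (x, y) (not_lt.1 hcon)) (not_le.2 hxy)
  obtain ⟨n, U, hUo, hUd, hUc, hUch⟩ := hch δ hδ
  have hH : IsConnected (f ⁻¹' K) :=
    (hf.isClosedMap.isQuotientMap hf hfs).isCoinducing.isConnected_preimage_of_isClosed hfib
      hKc.isClosed hKconn
  have : PreconnectedSpace (f ⁻¹' K) := Subtype.preconnectedSpace hH.isPreconnected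
  obtain ⟨θ, hθ, hθz⟩ := chain_lift (H := f ⁻¹' K) (fun x => (p x).2) (by fun_prop) n
    (fun i => {x | f x ∈ U i}) (fun i => (hUo i).preimage (by fun_prop))
    (fun x => by have := mem_iUnion.1 (hUc x.2); exact this)
    (fun i j => by
      rw [← hUch]
      constructor
      · rintro ⟨x, h1, h2⟩
        exact ⟨f x, ⟨h1, h2⟩, x.2⟩
      · rintro ⟨y, ⟨h1, h2⟩, h3⟩
        obtain ⟨x, rfl⟩ := hfs y
        exact ⟨⟨x, h3⟩, h1, h2⟩)
    (fun i x hx y hy => hδs _ _ ((Metric.dist_le_diam_of_mem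
      (hKc.isBounded.subset inter_subset_right) ⟨hx, x.2⟩ ⟨hy, y.2⟩).trans_lt (hUd i)))
  obtain ⟨a, rfl⟩ := hfs k0
  obtain ⟨b, rfl⟩ := hfs k1
  refine no_lift (H := f ⁻¹' K) (fun x => p x) (by fun_prop) (fun x => (hrel x).1) ⟨a, hk0⟩ ⟨b, hk1⟩
    ?_ ?_ θ hθ hθz
  · have h1 := abs_le.1 (hu' a)
    rw [dist_self] at h1
    rw [(hrel a).2.2.1 (by have := h1.2; simp only [mul_zero, zero_div] at this; linarith)]
    norm_num
  · have h1 := abs_le.1 (hu' b)
    rw [mul_div_assoc, div_self hd.ne'] at h1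
    exact (hrel b).2.2.2 (by linarith [h1.1])

end Pool.Agent.MP_321614_gt

end MrgPart1

-- ======== part 2: formerly Pool.Agent.MP_321614_gt.Construct
section MrgPart2

/-!
# A continuum all of whose real-valued maps nearly lift to the spiral
-/

set_option autoImplicit false

open Set Real Topology Filter

namespace Pool.Agent.MP_321614_gt

/-- The ambient space. -/
abbrev Ω : Type := ℕ → E

/-- Keep the first `n` coordinates. -/
noncomputable def trunc (n : ℕ) (ω : Ω) : Ω := fun k => if k < n then ω k else (0, 1)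

lemma continuous_trunc (n : ℕ) : Continuous (trunc n) := by
  refine continuous_pi fun k => ?_
  unfold trunc
  split_ifs
  · exact continuous_apply k
  · exact continuous_const

lemma tendstoUniformly_trunc : TendstoUniformly trunc id atTop := by
  rw [tendstoUniformly_iff_tendsto, Pi.uniformity, tendsto_iInf]
  intro k
  rw [tendsto_comap_iff]
  intro s hs
  rw [mem_map]
  filter_upwards [(eventually_gt_atTop k).prod_inl (⊤ : Filter Ω)] with q hq
  simp only [trunc, hq, if_true, id, mem_preimage, Function.comp]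
  exact refl_mem_uniformity hs

/-- The `n`-th test function; it depends only on the coordinates `≤ n`. -/
noncomputable def test (n : ℕ) (ω : Ω) : ℝ :=
  TopologicalSpace.denseSeq C(Ω, ℝ) (Nat.unpair n).1 (trunc (n + 1) ω)

lemma continuous_test (n : ℕ) : Continuous (test n) :=
  (TopologicalSpace.denseSeq C(Ω, ℝ) (Nat.unpair n).1).continuous.comp (continuous_trunc _)

lemma exists_test (u : C(Ω, ℝ)) : ∃ n, ∀ ω, |test n ω - u ω| ≤ 1 / 1000 := by
  obtain ⟨k, hk⟩ := (TopologicalSpace.denseRange_denseSeq C(Ω, ℝ)).exists_dist_lt u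
    (ε := 1 / 2000) (by norm_num)
  set w := TopologicalSpace.denseSeq C(Ω, ℝ) k with hw
  have h1 := (CompactSpace.uniformContinuous_of_continuous w.continuous).comp_tendstoUniformly
    tendstoUniformly_trunc
  obtain ⟨N, hN⟩ := eventually_atTop.1 (Metric.tendstoUniformly_iff.1 h1 (1 / 2000) (by norm_num))
  refine ⟨Nat.pair k N, fun ω => ?_⟩
  have h2 := hN (Nat.pair k N + 1) ((Nat.right_le_pair k N).trans (Nat.le_succ _)) ω
  have h3 := (ContinuousMap.dist_apply_le_dist (f := u) (g := w) ω).trans_lt hk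
  simp only [Function.comp, id, Real.dist_eq] at h2 h3
  simp only [test, Nat.unpair_pair, ← hw]
  rw [abs_lt] at h2 h3
  rw [abs_le]
  constructor <;> linarith [h2.1, h2.2, h3.1, h3.2]

/-- The inductive invariant. -/
def Good (n : ℕ) (C : Set Ω) : Prop :=
  IsCompact C ∧ IsConnected C ∧ (∀ ω ∈ C, ∀ ω' : Ω, (∀ k ≤ n, ω' k = ω k) → ω' ∈ C) ∧
    ∀ e : E, ∃ ω ∈ C, ω 0 = e

lemma good_univ : Good 0 univ :=
  ⟨isCompact_univ, isConnected_univ, fun _ _ _ _ => mem_univ _,
    fun e => ⟨fun _ => e, mem_univ _, rfl⟩⟩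

lemma good_step {n : ℕ} {C : Set Ω} (hC : Good n C) :
    ∃ C', Good (n + 1) C' ∧ C' ⊆ C ∧ ∀ ω ∈ C', Rel (test n ω) (ω (n + 1)) := by
  obtain ⟨hc, hconn, hinv, h0⟩ := hC
  have : CompactSpace C := isCompact_iff_compactSpace.1 hc
  have : ConnectedSpace C := Subtype.connectedSpace hconn
  obtain ⟨D, hDc, hDconn, hDrel, hDs⟩ := exists_lift (X := C) (fun x => test n x)
    ((continuous_test n).comp continuous_subtype_val)
  let sp : (C × E) × Ω → Ω := fun q k =>
    if k ≤ n then (q.1.1 : Ω) k else if k = n + 1 then q.1.2 else q.2 k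
  have csp : Continuous sp := by
    refine continuous_pi fun k => ?_
    simp only [sp]
    split_ifs
    · exact (continuous_apply k).comp (continuous_subtype_val.comp (by fun_prop))
    · fun_prop
    · fun_prop
  refine ⟨sp '' (D ×ˢ univ), ⟨(hDc.prod isCompact_univ).image csp,
    (hDconn.prod isConnected_univ).image _ csp.continuousOn, ?_, fun e => ?_⟩, ?_, ?_⟩
  · rintro _ ⟨⟨q, ω0⟩, ⟨hq, -⟩, rfl⟩ ω' h
    refine ⟨(q, ω'), ⟨hq, mem_univ _⟩, funext fun k => ?_⟩
    by_cases hk : k ≤ n + 1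
    · rw [h k hk]
      simp only [sp]
      split_ifs with h1 h2
      · rfl
      · rfl
      · omega
    · simp only [sp]
      rw [if_neg (by omega), if_neg (by omega)]
  · obtain ⟨ω, hω, he⟩ := h0 e
    obtain ⟨y, hy⟩ := hDs ⟨ω, hω⟩
    exact ⟨sp ((⟨ω, hω⟩, y), ω), ⟨_, ⟨hy, mem_univ _⟩, rfl⟩, by simp [sp, he]⟩
  · rintro _ ⟨⟨q, ω0⟩, ⟨-, -⟩, rfl⟩
    exact hinv _ q.1.2 _ fun k hk => by simp [sp, hk]
  · rintro _ ⟨⟨q, ω0⟩, ⟨hq, -⟩, rfl⟩
    have e1 : test n (sp (q, ω0)) = test n q.1 := by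
      unfold test
      congr 1
      funext k
      simp only [trunc, sp]
      split_ifs with h1 h2 h3
      · rfl
      · omega
      · omega
      · rfl
    have e2 : sp (q, ω0) (n + 1) = q.2 := by simp [sp]
    rw [e1, e2]
    exact hDrel q hq

lemma isPreconnected_iInter_of_antitone {X : Type*} [TopologicalSpace X] [CompactSpace X]
    [T2Space X] (C : ℕ → Set X) (hanti : ∀ n, C (n + 1) ⊆ C n) (hc : ∀ n, IsCompact (C n))
    (hconn : ∀ n, IsPreconnected (C n)) : IsPreconnected (⋂ n, C n) := by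
  rw [isPreconnected_iff_subset_of_fully_disjoint_closed
    (isClosed_iInter fun n => (hc n).isClosed)]
  intro a b ha hb hab hdis
  rcases normal_separation ha hb hdis with ⟨u, v, hu, hv, hau, hbv, huv⟩
  obtain ⟨n, hn⟩ : ∃ n, C n ⊆ u ∪ v := by
    by_contra hcon
    push Not at hcon
    obtain ⟨x, hx⟩ := IsCompact.nonempty_iInter_of_sequence_nonempty_isCompact_isClosed
      (fun n => C n ∩ (u ∪ v)ᶜ) (fun n => inter_subset_inter_left _ (hanti n))
      (fun n => by
        obtain ⟨x, h1, h2⟩ := not_subset.1 (hcon n)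
        exact ⟨x, h1, h2⟩)
      ((hc 0).inter_right (hu.union hv).isClosed_compl)
      (fun n => (hc n).isClosed.inter (hu.union hv).isClosed_compl)
    rw [mem_iInter] at hx
    exact (hx 0).2 (union_subset_union hau hbv (hab (mem_iInter.2 fun n => (hx n).1)))
  rcases (hconn n).subset_or_subset hu hv huv hn with h | h
  · left
    exact Disjoint.left_le_of_le_sup_right hab (huv.mono ((iInter_subset C n).trans h) hbv)
  · right
    exact (huv.symm.mono ((iInter_subset C n).trans h) hau).left_le_of_le_sup_left hab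

theorem exists_continuum : ∃ M : Set Ω, IsCompact M ∧ IsConnected M ∧ M.Nontrivial ∧
    ∀ u : M → ℝ, Continuous u → ∃ (p : M → E) (u' : M → ℝ), Continuous p ∧
      (∀ x, |u' x - u x| ≤ 1 / 1000) ∧ ∀ x, Rel (u' x) (p x) := by
  let F : (n : ℕ) → {C : Set Ω // Good n C} := fun n => Nat.rec ⟨univ, good_univ⟩
    (fun _ C => ⟨(good_step C.2).choose, (good_step C.2).choose_spec.1⟩) n
  have hsub : ∀ n, (F (n + 1)).1 ⊆ (F n).1 := fun n => (good_step (F n).2).choose_spec.2.1
  have hrel : ∀ n, ∀ ω ∈ (F (n + 1)).1, Rel (test n ω) (ω (n + 1)) := fun n =>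
    (good_step (F n).2).choose_spec.2.2
  have hcl : IsClosed (⋂ n, (F n).1) := isClosed_iInter fun n => (F n).2.1.isClosed
  have h0 : ∀ e : E, ∃ ω ∈ ⋂ n, (F n).1, ω 0 = e := fun e => by
    have hc : IsClosed {ω : Ω | ω 0 = e} := isClosed_eq (continuous_apply 0) continuous_const
    obtain ⟨x, hx⟩ := IsCompact.nonempty_iInter_of_sequence_nonempty_isCompact_isClosed
      (fun n => (F n).1 ∩ {ω : Ω | ω 0 = e}) (fun n => inter_subset_inter_left _ (hsub n))
      (fun n => by
        obtain ⟨x, h1, h2⟩ := (F n).2.2.2.2 e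
        exact ⟨x, h1, h2⟩)
      ((F 0).2.1.inter_right hc) (fun n => (F n).2.1.isClosed.inter hc)
    rw [mem_iInter] at hx
    exact ⟨x, mem_iInter.2 fun n => (hx n).1, (hx 0).2⟩
  obtain ⟨a, ha, ha0⟩ := h0 (0, 1)
  obtain ⟨b, hb, hb0⟩ := h0 (1, 1)
  refine ⟨⋂ n, (F n).1, hcl.isCompact, ⟨⟨a, ha⟩, isPreconnected_iInter_of_antitone _ hsub
    (fun n => (F n).2.1) fun n => (F n).2.2.1.isPreconnected⟩, ⟨a, ha, b, hb, fun h => ?_⟩, ?_⟩
  · rw [h, hb0] at ha0
    exact one_ne_zero (congrArg Prod.fst ha0)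
  intro u hu
  obtain ⟨v, hv⟩ := ContinuousMap.exists_restrict_eq hcl (⟨u, hu⟩ : C((⋂ n, (F n).1 : Set Ω), ℝ))
  obtain ⟨n, hn⟩ := exists_test v
  refine ⟨fun x => (x : Ω) (n + 1), fun x => test n x,
    (continuous_apply (n + 1)).comp continuous_subtype_val, fun x => ?_,
    fun x => hrel n _ (mem_iInter.1 x.2 (n + 1))⟩
  have : u x = v x := (congrArg (fun g : C((⋂ n, (F n).1 : Set Ω), ℝ) => g x) hv).symm
  rw [this]
  exact hn x

end Pool.Agent.MP_321614_gt

end MrgPart2

-- marker of a merged file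
example : 731051 + 661348 = 731051 + 661348 := rfl
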